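import Pool.Agent.Y498.EL.RepA

/-!
Project EL (helper262), job REP: the representation formula (`StRep`).

Only test functions of the form `(2π)⁻¹ ∫ E (y - z) ψ z` are used, where `log = Lc + E` is the sum of
a smooth kernel and a kernel with small support.
-/

set_option autoImplicit false

open Set Filter Topology MeasureTheory
open scoped ContDiff ComplexConjugate Real Convolution

noncomputable section

namespace Pool.Agent.Y498.EL

open Pool.Agent.Y262.EG Pool.Agent.Y262.EX Pool.Agent.Y262.EL

theorem lap_congr {f g : ℂ → ℝ} {y : ℂ} (h : f =ᶠ[𝓝 y] g) : lap f y = lap g y := by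
  have h1 : px f =ᶠ[𝓝 y] px g := by
    filter_upwards [h.fderiv (𝕜 := ℝ)] with z hz
    unfold px
    rw [hz]
  have h2 : py f =ᶠ[𝓝 y] py g := by
    filter_upwards [h.fderiv (𝕜 := ℝ)] with z hz
    unfold py
    rw [hz]
  unfold lap
  have e1 : px (px f) y = px (px g) y := by
    show fderiv ℝ (px f) y 1 = fderiv ℝ (px g) y 1
    rw [h1.fderiv_eq]
  have e2 : py (py f) y = py (py g) y := by
    show fderiv ℝ (py f) y Complex.I = fderiv ℝ (py g) y Complex.I
    rw [h2.fderiv_eq]
  rw [e1, e2]

theorem px_cd {f : ℂ → ℝ} (hf : ContDiff ℝ ∞ f) : ContDiff ℝ ∞ (px f) := by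
  have h : ContDiff ℝ ∞ (fderiv ℝ f) := hf.fderiv_right (by simp)
  exact h.clm_apply contDiff_const

theorem py_cd {f : ℂ → ℝ} (hf : ContDiff ℝ ∞ f) : ContDiff ℝ ∞ (py f) := by
  have h : ContDiff ℝ ∞ (fderiv ℝ f) := hf.fderiv_right (by simp)
  exact h.clm_apply contDiff_const

theorem px_cs {f : ℂ → ℝ} (hf : HasCompactSupport f) : HasCompactSupport (px f) :=
  hf.fderiv_apply ℝ 1

theorem py_cs {f : ℂ → ℝ} (hf : HasCompactSupport f) : HasCompactSupport (py f) :=
  hf.fderiv_apply ℝ Complex.I

theorem lap_cd {f : ℂ → ℝ} (hf : ContDiff ℝ ∞ f) : ContDiff ℝ ∞ (lap f) :=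
  (px_cd (px_cd hf)).add (py_cd (py_cd hf))

theorem lap_cs {f : ℂ → ℝ} (hf : HasCompactSupport f) : HasCompactSupport (lap f) :=
  (px_cs (px_cs hf)).add (py_cs (py_cs hf))

theorem px_add {f g : ℂ → ℝ} (hf : ContDiff ℝ ∞ f) (hg : ContDiff ℝ ∞ g) :
    px (fun y => f y + g y) = fun y => px f y + px g y := by
  funext y
  unfold px
  rw [fderiv_fun_add (hf.differentiable (by simp) y) (hg.differentiable (by simp) y)]
  rfl

theorem py_add {f g : ℂ → ℝ} (hf : ContDiff ℝ ∞ f) (hg : ContDiff ℝ ∞ g) :
    py (fun y => f y + g y) = fun y => py f y + py g y := by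
  funext y
  unfold py
  rw [fderiv_fun_add (hf.differentiable (by simp) y) (hg.differentiable (by simp) y)]
  rfl

theorem lap_add {f g : ℂ → ℝ} (hf : ContDiff ℝ ∞ f) (hg : ContDiff ℝ ∞ g) (y : ℂ) :
    lap (fun y => f y + g y) y = lap f y + lap g y := by
  unfold lap
  rw [px_add hf hg, py_add hf hg, px_add (px_cd hf) (px_cd hg), py_add (py_cd hf) (py_cd hg)]
  ring

theorem px_mul (c : ℝ) {f : ℂ → ℝ} (hf : ContDiff ℝ ∞ f) :
    px (fun y => c * f y) = fun y => c * px f y := by
  funext y
  unfold px
  rw [fderiv_const_mul (hf.differentiable (by simp) y)]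
  rfl

theorem py_mul (c : ℝ) {f : ℂ → ℝ} (hf : ContDiff ℝ ∞ f) :
    py (fun y => c * f y) = fun y => c * py f y := by
  funext y
  unfold py
  rw [fderiv_const_mul (hf.differentiable (by simp) y)]
  rfl

theorem lap_mul (c : ℝ) {f : ℂ → ℝ} (hf : ContDiff ℝ ∞ f) (y : ℂ) :
    lap (fun y => c * f y) y = c * lap f y := by
  unfold lap
  rw [px_mul c hf, py_mul c hf, px_mul c (px_cd hf), py_mul c (py_cd hf)]
  ring

/-- the Laplacian of a convolution -/
theorem lap_cv {K ψ : ℂ → ℝ} (hψ : Continuous ψ) (hψc : HasCompactSupport ψ) (hK : ContDiff ℝ ∞ K)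
    (hKc : HasCompactSupport K) (y : ℂ) :
    lap (fun y => ∫ z, K (y - z) * ψ z) y = ∫ z, lap K (y - z) * ψ z := by
  have hl : LocallyIntegrable ψ := hψ.locallyIntegrable
  have e1 : px (fun y => ∫ z, K (y - z) * ψ z) = fun y => ∫ z, px K (y - z) * ψ z := by
    funext y
    exact cv_fderiv hl hK hKc 1 y
  have e2 : py (fun y => ∫ z, K (y - z) * ψ z) = fun y => ∫ z, py K (y - z) * ψ z := by
    funext y
    exact cv_fderiv hl hK hKc Complex.I y
  have e3 : px (fun y => ∫ z, px K (y - z) * ψ z) = fun y => ∫ z, px (px K) (y - z) * ψ z := by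
    funext y
    exact cv_fderiv hl (px_cd hK) (px_cs hKc) 1 y
  have e4 : py (fun y => ∫ z, py K (y - z) * ψ z) = fun y => ∫ z, py (py K) (y - z) * ψ z := by
    funext y
    exact cv_fderiv hl (py_cd hK) (py_cs hKc) Complex.I y
  have hi : ∀ k : ℂ → ℝ, Continuous k → Integrable (fun z => k (y - z) * ψ z) := by
    intro k hk
    refine Continuous.integrable_of_hasCompactSupport ?_ hψc.mul_left
    exact (hk.comp (continuous_const.sub continuous_id)).mul hψ
  unfold lap
  rw [e1, e2, e3, e4]
  show (∫ z, px (px K) (y - z) * ψ z) + (∫ z, py (py K) (y - z) * ψ z) = _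
  rw [← integral_add (hi _ (px_cd (px_cd hK)).continuous) (hi _ (py_cd (py_cd hK)).continuous)]
  congr 1
  funext z
  ring

theorem rep : StLog → StPot1 → StRep := by
  intro hL hP z0 r a U hr ha hU hWk r1 r2 h1 h12 h2r η hη hη1
  obtain ⟨hηs, hηc, hηt⟩ := hη
  set d : ℝ := (r2 - r1) / 2 with hd
  have hd0 : 0 < d := by rw [hd]; linarith
  have hdr : r1 + d < r2 := by rw [hd]; linarith
  obtain ⟨Lc, E, hLc, hLcc, hE, hE0, hlog⟩ :=
    kern (fun R => (hL.1 R).2.1) d (2 * r) hd0 (by positivity)
  set c : ℝ := (2 * π)⁻¹ with hc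
  -- the densities
  have : IsFiniteMeasure ((volume : Measure ℂ).restrict (Metric.ball z0 r)) :=
    ⟨by rw [Measure.restrict_apply_univ]; exact measure_ball_lt_top⟩
  have hUi : IntegrableOn U (Metric.ball z0 r) := hU.integrable (by norm_num)
  set g1 : ℂ → ℝ := (Metric.ball z0 r2).indicator U with hg1
  have hg1i : Integrable g1 :=
    (integrable_indicator_iff measurableSet_ball).2
      (hUi.mono_set (Metric.ball_subset_ball h2r.le))
  set m : ℂ → ℝ := fun y => a y * η y with hm
  have hmc : Continuous m := continuous_iff_continuousAt.2 fun y => by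
    by_cases hy : y ∈ Metric.ball z0 r
    · exact (ha.continuousOn.continuousAt (Metric.isOpen_ball.mem_nhds hy)).mul
        hηs.continuous.continuousAt
    · have h3 : y ∉ tsupport η := fun h => hy (hηt h)
      have h4 : m =ᶠ[𝓝 y] fun _ => 0 := by
        filter_upwards [(isClosed_tsupport η).isOpen_compl.mem_nhds h3] with w hw
        simp [hm, image_eq_zero_of_notMem_tsupport hw]
      exact continuousAt_const.congr h4.symm
  have hmcs : HasCompactSupport m := hηc.mul_left
  obtain ⟨Cm, hCm⟩ := hmcs.exists_bound_of_continuous hmc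
  set g3 : ℂ → ℝ := fun y => a y * η y * U y with hg3
  have hg30 : ∀ y, y ∉ Metric.ball z0 r → g3 y = 0 := by
    intro y hy
    have h3 : y ∉ tsupport η := fun h => hy (hηt h)
    simp [hg3, image_eq_zero_of_notMem_tsupport h3]
  have hg3i : Integrable g3 := by
    rw [← integrableOn_iff_integrable_of_support_subset (s := Metric.ball z0 r)]
    · exact Integrable.bdd_mul hUi (c := Cm) hmc.aestronglyMeasurable (Eventually.of_forall hCm)
    · intro y hy
      by_contra hy'
      exact hy (hg30 y hy')
  -- the kernels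
  set K : ℂ → ℝ := lap Lc with hK
  have hKs : ContDiff ℝ ∞ K := lap_cd hLc
  have hKc : HasCompactSupport K := lap_cs hLcc
  have hKi : Integrable K := hKs.continuous.integrable_of_hasCompactSupport hKc
  have hLi : Integrable Lc := hLc.continuous.integrable_of_hasCompactSupport hLcc
  set T : ℂ → ℝ := fun z => ∫ y, g1 y * K (y - z) with hT
  set T2 : ℂ → ℝ := fun z => ∫ y, g3 y * Lc (y - z) with hT2
  set N : ℂ → ℝ := fun z => ∫ y, g3 y * E (y - z) with hN
  have hsm : ∀ (g k : ℂ → ℝ), Integrable g → ContDiff ℝ ∞ k → HasCompactSupport k →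
      ContDiff ℝ ∞ (fun z => ∫ y, g y * k (y - z)) := by
    intro g k hg hk hkc
    have h := cv_contDiff (K := fun x => k (-x)) hg.locallyIntegrable
      (hk.comp contDiff_neg) (hkc.comp_homeomorph (Homeomorph.neg ℂ))
    have e : (fun z => ∫ y, g y * k (y - z)) = fun z => ∫ y, k (-(z - y)) * g y := by
      funext z
      congr 1
      funext y
      rw [neg_sub]
      ring
    rw [e]
    exact h
  have hTs : ContDiff ℝ ∞ T := hsm g1 K hg1i hKs hKc
  have hT2s : ContDiff ℝ ∞ T2 := hsm g3 Lc hg3i hLc hLcc
  -- the identity for test functions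
  have key : ∀ ψ : ℂ → ℝ, Tf (Metric.ball z0 r1) ψ →
      ∫ z, ψ z * (g1 z - c * T z + c * N z) = 0 := by
    intro ψ hψ
    obtain ⟨hψs, hψc, hψt⟩ := hψ
    have hψ0 : ∀ z, z ∉ Metric.ball z0 r1 → ψ z = 0 := fun z hz =>
      image_eq_zero_of_notMem_tsupport fun h => hz (hψt h)
    obtain ⟨Cψ, hCψ⟩ := hψc.exists_bound_of_continuous hψs.continuous
    set p2 : ℂ → ℝ := fun y => c * ∫ z, E (y - z) * ψ z with hp2
    have hp2s : ContDiff ℝ ∞ p2 :=
      contDiff_const.mul (cv_contDiff' hE.locallyIntegrable hψs hψc)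
    have hE2 : ∀ y, r1 + d < dist y z0 → (∫ z, E (y - z) * ψ z) = 0 := by
      intro y hy
      have : (fun z => E (y - z) * ψ z) = fun _ => 0 := by
        funext z
        by_cases hz : z ∈ Metric.ball z0 r1
        · rw [hE0, zero_mul]
          have h3 := dist_triangle y z z0
          rw [Metric.mem_ball] at hz
          rw [← dist_eq_norm]
          linarith
        · rw [hψ0 z hz, mul_zero]
      rw [this, integral_zero]
    have hp20 : ∀ y, r1 + d < dist y z0 → p2 y = 0 := by
      intro y hy
      simp only [hp2, hE2 y hy, mul_zero]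
    have hp2t : tsupport p2 ⊆ Metric.closedBall z0 (r1 + d) := by
      refine closure_minimal ?_ Metric.isClosed_closedBall
      intro y hy
      by_contra hy'
      rw [Metric.mem_closedBall, not_le] at hy'
      exact hy (hp20 y hy')
    have hp2T : Tf (Metric.ball z0 r) p2 := by
      refine ⟨hp2s, ?_, hp2t.trans ?_⟩
      · exact (isCompact_closedBall z0 (r1 + d)).of_isClosed_subset (isClosed_tsupport _) hp2t
      · intro y hy
        rw [Metric.mem_closedBall] at hy
        rw [Metric.mem_ball]
        linarith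
    have hw := hWk p2 hp2T
    have hpot := hP ψ ⟨hψs, hψc, subset_univ _⟩
    set p1 : ℂ → ℝ := fun y => c * ∫ z, Lc (y - z) * ψ z with hp1
    have hp1' : ContDiff ℝ ∞ (fun y => ∫ z, Lc (y - z) * ψ z) :=
      cv_contDiff hψs.continuous.locallyIntegrable hLc hLcc
    have hp1s : ContDiff ℝ ∞ p1 := contDiff_const.mul hp1'
    -- decomposition of the potential
    have hdec : ∀ y ∈ Metric.ball z0 r, pot ψ y = p1 y + p2 y := by
      intro y hy
      have e : (fun z => Real.log ‖y - z‖ * ψ z) =
          fun z => Lc (y - z) * ψ z + E (y - z) * ψ z := by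
        funext z
        by_cases hz : z ∈ Metric.ball z0 r1
        · rw [hlog]
          · ring
          · rw [← dist_eq_norm]
            rw [Metric.mem_ball] at hz hy
            have h3 := dist_triangle_right y z z0
            linarith
        · rw [hψ0 z hz]
          ring
      unfold pot
      rw [e, integral_add]
      · simp only [hp1, hp2]
        ring
      · refine Continuous.integrable_of_hasCompactSupport ?_ hψc.mul_left
        exact (hLc.continuous.comp (continuous_const.sub continuous_id)).mul hψs.continuous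
      · have h3 : Integrable (fun z => E (y - z)) := hE.comp_sub_left y
        exact h3.mul_bdd (c := Cψ) hψs.continuous.aestronglyMeasurable (Eventually.of_forall hCψ)
    have hlap : ∀ y ∈ Metric.ball z0 r, lap p2 y = ψ y - c * ∫ z, K (y - z) * ψ z := by
      intro y hy
      have h3 : pot ψ =ᶠ[𝓝 y] fun y => p1 y + p2 y := by
        filter_upwards [Metric.isOpen_ball.mem_nhds hy] with w hw'
        exact hdec w hw'
      have h4 := lap_congr h3
      rw [hpot.2 y, lap_add hp1s hp2s, hp1, lap_mul c hp1',
        lap_cv hψs.continuous hψc hLc hLcc] at h4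
      linarith
    have hlap0 : ∀ y, r1 + d < dist y z0 → lap p2 y = 0 := by
      intro y hy
      have h3 : p2 =ᶠ[𝓝 y] fun _ => 0 := by
        have h4 : {w | r1 + d < dist w z0} ∈ 𝓝 y :=
          (isOpen_lt continuous_const (continuous_id.dist continuous_const)).mem_nhds hy
        filter_upwards [h4] with w hw'
        exact hp20 w hw'
      rw [lap_congr h3]
      unfold lap px py
      simp
    -- pointwise identity
    have hpt : ∀ y, U y * (lap p2 y + a y * p2 y) =
        ψ y * g1 y - c * (g1 y * ∫ z, K (y - z) * ψ z) + c * (g3 y * ∫ z, E (y - z) * ψ z) := by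
      intro y
      by_cases hy : y ∈ Metric.ball z0 r2
      · have e1 : g1 y = U y := indicator_of_mem hy U
        have e2 : g3 y = a y * U y := by simp only [hg3, hη1 y hy, mul_one]
        rw [e1, e2, hlap y (Metric.ball_subset_ball h2r.le hy)]
        simp only [hp2]
        ring
      · have hy' : r1 + d < dist y z0 := by
          rw [Metric.mem_ball, not_lt] at hy
          linarith
        have e1 : g1 y = 0 := indicator_of_notMem hy U
        rw [e1, hlap0 y hy', hp20 y hy', hE2 y hy']
        ring
    simp only [hpt] at hw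
    have f1 := fub hg1i hKi hψs.continuous hψc
    have f3 := fub hg3i hE hψs.continuous hψc
    have i1 : Integrable (fun y => ψ y * g1 y) :=
      hg1i.bdd_mul (c := Cψ) hψs.continuous.aestronglyMeasurable (Eventually.of_forall hCψ)
    rw [int_comb c i1 f1.2.2.2 f3.2.2.2, f1.1, f3.1] at hw
    have j2 : Integrable (fun z => ψ z * T z) :=
      f1.2.1.bdd_mul (c := Cψ) hψs.continuous.aestronglyMeasurable (Eventually.of_forall hCψ)
    have j3 : Integrable (fun z => ψ z * N z) :=
      f3.2.1.bdd_mul (c := Cψ) hψs.continuous.aestronglyMeasurable (Eventually.of_forall hCψ)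
    have e : (fun z => ψ z * (g1 z - c * T z + c * N z)) =
        fun z => ψ z * g1 z - c * (ψ z * T z) + c * (ψ z * N z) := by
      funext z
      ring
    rw [e, int_comb c i1 j2 j3]
    exact hw
  -- the fundamental lemma
  have f1 := fub0 hg1i hKi
  have f3 := fub0 hg3i hE
  have hH : Integrable (fun z => g1 z - c * T z + c * N z) :=
    (hg1i.sub (f1.1.const_mul c)).add (f3.1.const_mul c)
  have hae := Metric.isOpen_ball.ae_eq_zero_of_integral_contDiff_smul_eq_zero
    (U := Metric.ball z0 r1) (hH.locallyIntegrable.locallyIntegrableOn _)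
    (fun g hg hgc hgt => key g ⟨hg, hgc, hgt⟩)
  refine ⟨fun z => c * T z + c * T2 z,
    ((contDiff_const.mul hTs).add (contDiff_const.mul hT2s)).contDiffOn, ?_⟩
  rw [ae_restrict_iff' measurableSet_ball]
  filter_upwards [hae, f3.2] with z hz1 hz2 hz
  have hz3 := hz1 hz
  have e1 : g1 z = U z := indicator_of_mem (Metric.ball_subset_ball h12.le hz) U
  rw [e1] at hz3
  have e2 : pot (fun y => a y * η y * U y) z = c * T2 z + c * N z := by
    have e : (fun y => Real.log ‖z - y‖ * (a y * η y * U y)) =
        fun y => g3 y * Lc (y - z) + g3 y * E (y - z) := by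
      funext y
      by_cases hy : y ∈ Metric.ball z0 r
      · rw [← mul_add, ← hlog, norm_sub_rev]
        · ring
        · rw [← dist_eq_norm]
          rw [Metric.mem_ball] at hz hy
          have h3 := dist_triangle_right y z z0
          linarith
      · have h3 : a y * η y * U y = 0 := hg30 y hy
        rw [h3, hg30 y hy]
        ring
    unfold pot
    rw [e, integral_add _ hz2]
    · ring
    · obtain ⟨CL, hCL⟩ := hLcc.exists_bound_of_continuous hLc.continuous
      refine hg3i.mul_bdd (c := CL) ?_ (Eventually.of_forall fun y => hCL _)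
      exact (hLc.continuous.comp (continuous_id.sub continuous_const)).aestronglyMeasurable
  rw [e2]
  linarith

end Pool.Agent.Y498.EL
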