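import Pool.Agent.Y262.EL.Stm

/-!
Project EL (helper262), job REP, tools: a decomposition of the logarithm into a smooth kernel and an
integrable kernel with small support, Fubini for kernels `K (y - z)`, derivatives of convolutions.
-/

set_option autoImplicit false

open Set Filter Topology MeasureTheory
open scoped ContDiff ComplexConjugate Real Convolution

noncomputable section

namespace Pool.Agent.Y498.EL

open Pool.Agent.Y262.EG Pool.Agent.Y262.EX Pool.Agent.Y262.EL

/-- the logarithm is the sum of a smooth kernel and a kernel with small support -/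
theorem kern (hL : ∀ R : ℝ, IntegrableOn (fun y : ℂ => Real.log ‖y‖) (Metric.ball 0 R)) (d R : ℝ)
    (hd : 0 < d) (hR : 0 < R) : ∃ Lc E : ℂ → ℝ, ContDiff ℝ ∞ Lc ∧ HasCompactSupport Lc ∧
      Integrable E ∧ (∀ x, d ≤ ‖x‖ → E x = 0) ∧
      ∀ x, ‖x‖ ≤ R → Real.log ‖x‖ = Lc x + E x := by
  let b : ContDiffBump (0 : ℂ) := ⟨d / 2, d, by positivity, by linarith⟩
  let χ : ContDiffBump (0 : ℂ) := ⟨R, R + 1, hR, by linarith⟩
  let Ls : ℂ → ℝ := fun x => (1 / 2) * Real.log (‖x‖ ^ 2 + b x)
  have hpos : ∀ x : ℂ, 0 < ‖x‖ ^ 2 + b x := by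
    intro x
    by_cases hx : x = 0
    · have : 0 < b x := b.pos_of_mem_ball (by rw [hx]; simpa using b.rOut_pos)
      positivity
    · have h1 : 0 ≤ b x := b.nonneg
      have h2 : 0 < ‖x‖ := norm_pos_iff.2 hx
      positivity
  have hLs : ContDiff ℝ ∞ Ls := by
    refine contDiff_const.mul (ContDiff.log ?_ fun x => (hpos x).ne')
    exact (contDiff_norm_sq ℝ).add b.contDiff
  have hE0 : ∀ x : ℂ, d ≤ ‖x‖ → Real.log ‖x‖ - Ls x = 0 := by
    intro x hx
    have hb : b x = 0 := b.zero_of_le_dist (by simpa using hx)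
    show Real.log ‖x‖ - (1 / 2) * Real.log (‖x‖ ^ 2 + b x) = 0
    rw [hb, add_zero, Real.log_pow]
    push_cast
    ring
  refine ⟨fun x => χ x * Ls x, fun x => Real.log ‖x‖ - Ls x, χ.contDiff.mul hLs,
    χ.hasCompactSupport.mul_right, ?_, hE0, ?_⟩
  · have h1 : IntegrableOn (fun x : ℂ => Real.log ‖x‖ - Ls x) (Metric.ball 0 (d + 1)) := by
      refine (hL (d + 1)).sub ?_
      exact (hLs.continuous.continuousOn.integrableOn_compact
        (isCompact_closedBall (0 : ℂ) (d + 1))).mono_set Metric.ball_subset_closedBall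
    rw [← integrableOn_iff_integrable_of_support_subset (s := Metric.ball 0 (d + 1))]
    · exact h1
    · intro x hx
      by_contra hx'
      apply hx
      apply hE0
      simp only [Metric.mem_ball, dist_zero_right, not_lt] at hx'
      linarith
  · intro x hx
    have h1 : χ x = 1 := χ.one_of_mem_closedBall (by simpa using hx)
    simp only [h1]
    ring

/-- Fubini -/
theorem fub {g K ψ : ℂ → ℝ} (hg : Integrable g) (hK : Integrable K) (hψ : Continuous ψ)
    (hψc : HasCompactSupport ψ) :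
    (∫ y, g y * ∫ z, K (y - z) * ψ z) = (∫ z, ψ z * ∫ y, g y * K (y - z)) ∧
    Integrable (fun z => ∫ y, g y * K (y - z)) ∧
    (∀ᵐ z, Integrable (fun y => g y * K (y - z))) ∧
    Integrable (fun y => g y * ∫ z, K (y - z) * ψ z) := by
  have h0 := Integrable.convolution_integrand (μ := (volume : Measure ℂ)) (ν := (volume : Measure ℂ))
    (ContinuousLinearMap.mul ℝ ℝ) hg hK.comp_neg
  have h : Integrable (fun p : ℂ × ℂ => g p.2 * K (p.2 - p.1))
      ((volume : Measure ℂ).prod volume) := by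
    refine h0.congr (Eventually.of_forall fun p => ?_)
    simp
  obtain ⟨C, hC⟩ := hψc.exists_bound_of_continuous hψ
  have h' : Integrable (fun p : ℂ × ℂ => ψ p.1 * (g p.2 * K (p.2 - p.1)))
      ((volume : Measure ℂ).prod volume) := by
    refine h.bdd_mul (c := C) ?_ ?_
    · exact (hψ.comp continuous_fst).aestronglyMeasurable
    · exact Eventually.of_forall fun p => hC p.1
  have hsw := integral_integral_swap (f := fun z y => ψ z * (g y * K (y - z))) h'
  refine ⟨?_, h.integral_prod_left, h.prod_right_ae, ?_⟩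
  · have e1 : ∀ z : ℂ, ∫ y, ψ z * (g y * K (y - z)) = ψ z * ∫ y, g y * K (y - z) :=
      fun z => integral_const_mul _ _
    have e2 : ∀ y : ℂ, ∫ z, ψ z * (g y * K (y - z)) = g y * ∫ z, K (y - z) * ψ z := by
      intro y
      rw [← integral_const_mul]
      congr 1
      funext z
      ring
    simp only [e1, e2] at hsw
    exact hsw.symm
  · have h2 := h'.integral_prod_right
    refine h2.congr (Eventually.of_forall fun y => ?_)
    show (∫ z, ψ z * (g y * K (y - z))) = g y * ∫ z, K (y - z) * ψ z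
    rw [← integral_const_mul]
    congr 1
    funext z
    ring

/-- Fubini, without test function -/
theorem fub0 {g K : ℂ → ℝ} (hg : Integrable g) (hK : Integrable K) :
    Integrable (fun z => ∫ y, g y * K (y - z)) ∧
    ∀ᵐ z, Integrable (fun y => g y * K (y - z)) := by
  have h0 := Integrable.convolution_integrand (μ := (volume : Measure ℂ)) (ν := (volume : Measure ℂ))
    (ContinuousLinearMap.mul ℝ ℝ) hg hK.comp_neg
  have h : Integrable (fun p : ℂ × ℂ => g p.2 * K (p.2 - p.1))
      ((volume : Measure ℂ).prod volume) := by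
    refine h0.congr (Eventually.of_forall fun p => ?_)
    simp
  exact ⟨h.integral_prod_left, h.prod_right_ae⟩

theorem int_comb (c : ℝ) {A B D : ℂ → ℝ} (hA : Integrable A) (hB : Integrable B)
    (hD : Integrable D) :
    ∫ z, (A z - c * B z + c * D z) = (∫ z, A z) - c * (∫ z, B z) + c * ∫ z, D z := by
  have h1 : ∫ z, (A z - c * B z + c * D z) = (∫ z, (A z - c * B z)) + ∫ z, c * D z :=
    integral_add (hA.sub (hB.const_mul c)) (hD.const_mul c)
  have h2 : ∫ z, (A z - c * B z) = (∫ z, A z) - ∫ z, c * B z :=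
    integral_sub hA (hB.const_mul c)
  rw [h1, h2, integral_const_mul, integral_const_mul]

theorem cv_eq (K ψ : ℂ → ℝ) : (fun y => ∫ z, K (y - z) * ψ z) =
    (ψ ⋆[ContinuousLinearMap.mul ℝ ℝ, volume] K) := by
  funext y
  show _ = ∫ z, ψ z * K (y - z)
  congr 1
  funext z
  ring

theorem cv_contDiff {K ψ : ℂ → ℝ} (hψ : LocallyIntegrable ψ) (hK : ContDiff ℝ ∞ K)
    (hKc : HasCompactSupport K) : ContDiff ℝ ∞ (fun y => ∫ z, K (y - z) * ψ z) := by
  rw [cv_eq]
  exact hKc.contDiff_convolution_right _ hψ hK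

theorem cv_contDiff' {K ψ : ℂ → ℝ} (hK : LocallyIntegrable K) (hψ : ContDiff ℝ ∞ ψ)
    (hψc : HasCompactSupport ψ) : ContDiff ℝ ∞ (fun y => ∫ z, K (y - z) * ψ z) := by
  rw [cv_eq]
  exact hψc.contDiff_convolution_left _ hψ hK

theorem cv_fderiv {K ψ : ℂ → ℝ} (hψ : LocallyIntegrable ψ) (hK : ContDiff ℝ ∞ K)
    (hKc : HasCompactSupport K) (e y : ℂ) :
    fderiv ℝ (fun y => ∫ z, K (y - z) * ψ z) y e = ∫ z, fderiv ℝ K (y - z) e * ψ z := by
  rw [cv_eq, (hKc.hasFDerivAt_convolution_right (ContinuousLinearMap.mul ℝ ℝ) hψ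
    (hK.of_le (by exact_mod_cast le_top)) y).fderiv]
  have hc : Continuous (fderiv ℝ K) := hK.continuous_fderiv (by simp)
  have hcs : HasCompactSupport (fderiv ℝ K) := hKc.fderiv ℝ
  rw [convolution_precompR_apply (ContinuousLinearMap.mul ℝ ℝ) hψ hcs hc]
  show (∫ z, ψ z * fderiv ℝ K (y - z) e) = _
  congr 1
  funext z
  ring

end Pool.Agent.Y498.EL
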